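import Pool.Agent.Mnh583.BaseP

/-!
# A base graph with 10 vertices and 15 edges

The vertex `x = 0` with the neighbours `1, 4, 5`.
-/

set_option autoImplicit false

namespace Pool.Mnh583

namespace B10

/-- The incidence table. -/
def T : List (List (ℕ × ℕ)) := [
  [(0, 1), (1, 4), (2, 5)],
  [(0, 0), (3, 2), (4, 6)],
  [(3, 1), (5, 3), (6, 7)],
  [(5, 2), (7, 4), (8, 8)],
  [(1, 0), (7, 3), (9, 9)],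
  [(2, 0), (10, 7), (11, 8)],
  [(4, 1), (12, 8), (13, 9)],
  [(6, 2), (10, 5), (14, 9)],
  [(8, 3), (11, 5), (12, 6)],
  [(9, 4), (13, 6), (14, 7)]]

/-- The edges. -/
def E : List (ℕ × ℕ) := [
  (0, 1), (0, 4), (0, 5), (1, 2), (1, 6), (2, 3), (2, 7), (3, 4), (3, 8), (4, 9), (5, 7),
  (5, 8), (6, 8), (6, 9), (7, 9)]

/-- The Hamilton paths between the nonadjacent vertices. -/
def P : List (List ℕ) := [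
  [0, 1, 6, 8, 5, 7, 9, 4, 3, 2],
  [0, 1, 2, 7, 5, 8, 6, 9, 4, 3],
  [0, 1, 2, 3, 4, 9, 7, 5, 8, 6],
  [0, 1, 2, 3, 4, 9, 6, 8, 5, 7],
  [0, 1, 6, 9, 4, 3, 2, 7, 5, 8],
  [0, 1, 6, 8, 5, 7, 2, 3, 4, 9],
  [1, 0, 4, 9, 6, 8, 5, 7, 2, 3],
  [1, 0, 5, 7, 2, 3, 8, 6, 9, 4],
  [1, 0, 4, 3, 2, 7, 9, 6, 8, 5],
  [1, 0, 5, 8, 6, 9, 4, 3, 2, 7],
  [1, 0, 5, 7, 2, 3, 4, 9, 6, 8],
  [1, 0, 4, 3, 2, 7, 5, 8, 6, 9],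
  [2, 1, 0, 5, 7, 9, 6, 8, 3, 4],
  [2, 1, 0, 4, 3, 8, 6, 9, 7, 5],
  [2, 1, 0, 4, 3, 8, 5, 7, 9, 6],
  [2, 1, 6, 9, 7, 5, 0, 4, 3, 8],
  [2, 1, 6, 8, 3, 4, 0, 5, 7, 9],
  [3, 2, 7, 9, 4, 0, 1, 6, 8, 5],
  [3, 2, 1, 0, 4, 9, 7, 5, 8, 6],
  [3, 2, 1, 0, 4, 9, 6, 8, 5, 7],
  [3, 2, 7, 5, 8, 6, 1, 0, 4, 9],
  [4, 0, 1, 2, 3, 8, 6, 9, 7, 5],
  [4, 0, 1, 2, 3, 8, 5, 7, 9, 6],
  [4, 0, 5, 8, 3, 2, 1, 6, 9, 7],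
  [4, 0, 5, 7, 9, 6, 1, 2, 3, 8],
  [5, 0, 1, 2, 7, 9, 4, 3, 8, 6],
  [5, 0, 4, 3, 8, 6, 1, 2, 7, 9],
  [6, 1, 2, 3, 8, 5, 0, 4, 9, 7],
  [7, 2, 3, 4, 9, 6, 1, 0, 5, 8],
  [8, 3, 4, 0, 5, 7, 2, 1, 6, 9]]

/-- The paths of the condition `dd`. -/
def D : List (List ℕ) := [
  [],
  [],
  [2, 7, 9, 6, 8, 3, 4],
  [3, 2, 7, 9, 6, 8, 5],
  [],
  [],
  [6, 8, 3, 2, 7, 9, 4],
  [7, 2, 3, 8, 6, 9, 4],
  [8, 6, 9, 7, 2, 3, 4],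
  [9, 6, 8, 3, 2, 7, 5]]

/-- The certificate that there is no Hamilton cycle. -/
def s : ℕ :=
  0x8080818182838389884e7fc2e1830361024201c1a1e1e2212b1ff098307080e850b0a82060504030201808484818282888758ffc3a14282e0c201814121a1a1e0ca7ff08820506890e0d0c8104030907028585818282898394ffc22101c261c381814121a1a0e0c1fff0782060588080d0c8104030b0a80020100

theorem ok1 : tblOk T 10 E = true := by decide +kernel

theorem ok2 : runOk T 10 15 s = true := by decide +kernel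

theorem ok3 : pairsOk T 10 (prs 10) P = true := by decide +kernel

theorem ok4 : restOk T 10 0 1 4 5
    [4, 3, 2, 7, 9, 6, 8, 5]
    [1, 2, 3, 8, 6, 9, 7, 5]
    [1, 2, 7, 9, 6, 8, 3, 4] D = true := by
  decide +kernel

theorem good : ∃ x t0 t1 t2 : Fin 10, Good (gr T 10) x t0 t1 t2 :=
  good_of_ok ok1 ok2 ok3 ok4

end B10

end Pool.Mnh583
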