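import Pool.Agent.Mnh583.Defs

/-! Calculus of the paths `HP`, and the adjacencies of the gadget. -/

set_option autoImplicit false

namespace Pool.Mnh583

variable {V W : Type} {G : SimpleGraph V} {S S' : V → Prop} {u v u' v' x t0 t1 t2 : V}

/-- Reverse the list. -/
theorem HP.symm (h : HP G S u v) : HP G S v u := by
  obtain ⟨l, hn, hc, hu, hv, hm⟩ := h
  refine ⟨l.reverse, List.nodup_reverse.2 hn, ?_, ?_, ?_, ?_⟩
  · rw [List.isChain_reverse]
    exact hc.imp fun a b h => h.symm
  · rw [List.head?_reverse, hv]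
  · rw [List.getLast?_reverse, hu]
  · intro w
    rw [List.mem_reverse]
    exact hm w

theorem HP.congr (h : HP G S u v) (hS : ∀ w, S w ↔ S' w) : HP G S' u v := by
  obtain ⟨l, hn, hc, hu, hv, hm⟩ := h
  exact ⟨l, hn, hc, hu, hv, fun w => (hm w).trans (hS w)⟩

theorem HP.append (h : HP G S u v) (h' : HP G S' u' v') (hd : ∀ w, S w → ¬ S' w)
    (ha : G.Adj v u') : HP G (fun w => S w ∨ S' w) u v' := by
  obtain ⟨l, hn, hc, hu, hv, hm⟩ := h
  obtain ⟨l', hn', hc', hu', hv', hm'⟩ := h'
  refine ⟨l ++ l', ?_, ?_, ?_, ?_, ?_⟩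
  · rw [List.nodup_append]
    refine ⟨hn, hn', fun a h1 b h2 hab => ?_⟩
    subst hab
    exact hd a ((hm a).1 h1) ((hm' a).1 h2)
  · refine List.IsChain.append hc hc' fun a h1 b h2 => ?_
    rw [hv, Option.mem_some_iff] at h1
    rw [hu', Option.mem_some_iff] at h2
    subst h1 h2
    exact ha
  · rw [List.head?_append, hu]
    rfl
  · rw [List.getLast?_append, hv']
    rfl
  · intro w
    rw [List.mem_append, hm, hm']

/-- The image under an injective map which preserves the adjacencies between vertices of `S`. -/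
theorem HP.map (f : V → W) (hf : Function.Injective f) (H : SimpleGraph W)
    (hadj : ∀ a b, S a → S b → G.Adj a b → H.Adj (f a) (f b)) (h : HP G S u v) :
    HP H (fun w => ∃ a, S a ∧ f a = w) (f u) (f v) := by
  obtain ⟨l, hn, hc, hu, hv, hm⟩ := h
  refine ⟨l.map f, hn.map hf, ?_, ?_, ?_, ?_⟩
  · rw [List.isChain_map]
    exact hc.imp_of_mem_imp fun a b h1 h2 h3 => hadj a b ((hm a).1 h1) ((hm b).1 h2) h3
  · rw [List.head?_map, hu]
    rfl
  · rw [List.getLast?_map, hv]
    rfl
  · intro w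
    rw [List.mem_map]
    exact exists_congr fun a => and_congr_left fun _ => hm a

private theorem adj0_Tools (hG : Good G x t0 t1 t2) : G.Adj x t0 :=
  (hG.nbr t0).2 (Or.inl rfl)

private theorem adj1_Tools (hG : Good G x t0 t1 t2) : G.Adj x t1 :=
  (hG.nbr t1).2 (Or.inr (Or.inl rfl))

private theorem adj2_Tools (hG : Good G x t0 t1 t2) : G.Adj x t2 :=
  (hG.nbr t2).2 (Or.inr (Or.inr rfl))

/-- The adjacencies of the gadget are adjacencies of `phi` (81 cases, `fin_cases`). -/
theorem gv_adj (hG : Good G x t0 t1 t2) (p q : Fin 9) (h : gadj p q = true) :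
    (phi G x t0 t1 t2).Adj (gv x t0 t1 t2 p) (gv x t0 t1 t2 q) := by
  have h0 := adj0_Tools hG
  have h0' := h0.symm
  have hx0 : x ≠ t0 := h0.ne
  fin_cases p <;> fin_cases q <;>
    first
    | exact absurd h (by decide)
    | simp [phi, phiAdj, gv, h0, h0', hx0, hx0.symm]

/-- `x, t0, t1, t2` are distinct. -/
theorem gv_inj (hG : Good G x t0 t1 t2) : Function.Injective (gv x t0 t1 t2) := by
  have hx0 : x ≠ t0 := (adj0_Tools hG).ne
  have hx1 : x ≠ t1 := (adj1_Tools hG).ne
  have hx2 : x ≠ t2 := (adj2_Tools hG).ne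
  have h01 := hG.t01
  have h02 := hG.t02
  have h12 := hG.t12
  intro p q h
  fin_cases p <;> fin_cases q <;>
    first
    | rfl
    | (exfalso
       simp [gv, hx0, hx1, hx2, h01, h02, h12, hx0.symm, hx1.symm, hx2.symm, h01.symm,
         h02.symm, h12.symm] at h)

/-- A list of vertices of the gadget as a path of `phi`. -/
theorem HP.gad (hG : Good G x t0 t1 t2) (l : List (Fin 9)) (p q : Fin 9) (hn : l.Nodup)
    (hc : l.IsChain (fun a b => gadj a b = true)) (hp : l.head? = some p)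
    (hq : l.getLast? = some q) :
    HP (phi G x t0 t1 t2) (fun w => ∃ a ∈ l, gv x t0 t1 t2 a = w) (gv x t0 t1 t2 p)
      (gv x t0 t1 t2 q) := by
  refine ⟨l.map (gv x t0 t1 t2), hn.map (gv_inj hG), ?_, ?_, ?_, ?_⟩
  · rw [List.isChain_map]
    exact hc.imp fun a b h => gv_adj hG a b h
  · rw [List.head?_map, hp]
    rfl
  · rw [List.getLast?_map, hq]
    rfl
  · intro w
    rw [List.mem_map]

/-- A path of `G` which avoids `x`, in `phi`. -/
theorem HP.inl (hG : Good G x t0 t1 t2) (h : HP G S u v) (hS : ∀ w, S w → w ≠ x) :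
    HP (phi G x t0 t1 t2) (fun w => ∃ a, S a ∧ Sum.inl a = w) (Sum.inl u) (Sum.inl v) := by
  refine HP.map Sum.inl Sum.inl_injective _ (fun a b ha hb hab => ?_) h
  exact ⟨hab, fun hh => hS a ha hh.1, fun hh => hS b hb hh.1⟩

end Pool.Mnh583
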