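import Pool.Agent.Mnh583.BaseQ
import Pool.Agent.Mnh583.Tools

/-! Base graphs: paths given by lists, checked by computation. -/

set_option autoImplicit false

namespace Pool.Mnh583

/-- The pairs `u < v` in order. -/
def prs (n : ℕ) : List (ℕ × ℕ) :=
  (List.range n).flatMap fun u => ((List.range n).filter fun v => Nat.blt u v).map fun v => (u, v)

/-- `ls` contains paths for the nonadjacent pairs, in order. -/
def pairsOk (T : List (List (ℕ × ℕ))) (n : ℕ) : List (ℕ × ℕ) → List (List ℕ) → Bool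
  | [], _ => true
  | (u, v) :: ps, ls =>
    if adjB T u v then pairsOk T n ps ls
    else match ls with
      | [] => false
      | l :: ls => pok T n [] l u v && pairsOk T n ps ls

private theorem baseP_mem {T : List (List (ℕ × ℕ))} {n : ℕ} : ∀ (ps : List (ℕ × ℕ))
    (ls : List (List ℕ)), pairsOk T n ps ls = true → ∀ u v : Fin n, (u.val, v.val) ∈ ps →
    ¬ (gr T n).Adj u v → HP (gr T n) (fun _ => True) u v
  | [], _, _, _, _, hm, _ => absurd hm List.not_mem_nil
  | (a, b) :: ps, ls, h, u, v, hm, hn => by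
    unfold pairsOk at h
    by_cases hab : adjB T a b = true
    · rw [if_pos hab] at h
      rcases List.mem_cons.1 hm with h1 | h1
      · rw [Prod.mk.injEq] at h1
        exact absurd (show adjB T u.val v.val = true by rw [h1.1, h1.2]; exact hab) hn
      · exact baseP_mem ps ls h u v h1 hn
    · rw [if_neg hab] at h
      match ls, h with
      | l :: ls, h =>
        simp only [Bool.and_eq_true] at h
        rcases List.mem_cons.1 hm with h1 | h1
        · rw [Prod.mk.injEq] at h1
          have h2 : pok T n [] l u.val v.val = true := by rw [h1.1, h1.2]; exact h.1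
          refine (pok_sound h2 u.2 v.2).congr fun w => ?_
          simp
        · exact baseP_mem ps ls h.2 u v h1 hn

private theorem baseP_prs {n : ℕ} (u v : Fin n) (h : u.val < v.val) :
    (u.val, v.val) ∈ prs n := by
  unfold prs
  rw [List.mem_flatMap]
  refine ⟨u.val, List.mem_range.2 u.2, List.mem_map.2 ⟨v.val, ?_, rfl⟩⟩
  rw [List.mem_filter]
  refine ⟨List.mem_range.2 v.2, ?_⟩
  rw [Nat.blt_eq]
  exact h

theorem pairs_of_ok {T : List (List (ℕ × ℕ))} {n : ℕ} {ls : List (List ℕ)}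
    (h : pairsOk T n (prs n) ls = true) (u v : Fin n) (huv : u ≠ v) (hn : ¬ (gr T n).Adj u v) :
    HP (gr T n) (fun _ => True) u v := by
  rcases lt_or_gt_of_ne (fun h' => huv (Fin.ext h') : u.val ≠ v.val) with h1 | h1
  · exact baseP_mem _ _ h u v (baseP_prs u v h1) hn
  · exact (baseP_mem _ _ h v u (baseP_prs v u h1) fun h2 => hn h2.symm).symm

/-- The paths of the condition `dd`. -/
def ddOk (T : List (List (ℕ × ℕ))) (n x t0 t1 t2 : ℕ) (D : List (List ℕ)) : Bool :=
  (List.range n).all fun u => u == x || u == t0 || u == t1 || u == t2 ||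
    pok T n [x, t0, t2] (D.getD u []) u t1 || pok T n [x, t0, t1] (D.getD u []) u t2

/-- No triangle. -/
def triOk (T : List (List (ℕ × ℕ))) (n : ℕ) : Bool :=
  (List.range n).all fun u => (nb T u).all fun p => (nb T p.2).all fun q => !adjB T u q.2

/-- No cycle of length four. -/
def sqOk (T : List (List (ℕ × ℕ))) (n : ℕ) : Bool :=
  (List.range n).all fun u => (nb T u).all fun p => (nb T p.2).all fun q => (nb T q.2).all fun r =>
    q.2 == u || r.2 == p.2 || !adjB T r.2 u

/-- The remaining conditions. -/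
def restOk (T : List (List (ℕ × ℕ))) (n x t0 t1 t2 : ℕ) (r0 r1 r2 : List ℕ)
    (D : List (List ℕ)) : Bool :=
  decide (x < n ∧ t0 < n ∧ t1 < n ∧ t2 < n ∧ 5 ≤ n) &&
  decide (t0 ≠ t1 ∧ t0 ≠ t2 ∧ t1 ≠ t2) &&
  adjB T x t0 && adjB T x t1 && adjB T x t2 &&
  ((nb T x).all fun p => p.2 == t0 || p.2 == t1 || p.2 == t2) &&
  sqOk T n && triOk T n &&
  pok T n [x, t0] r0 t1 t2 && pok T n [x, t1] r1 t0 t2 && pok T n [x, t2] r2 t0 t1 &&
  ddOk T n x t0 t1 t2 D

theorem good_of_ok {T : List (List (ℕ × ℕ))} {n : ℕ} {E : List (ℕ × ℕ)} {f s : ℕ}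
    {ls D : List (List ℕ)} {x t0 t1 t2 : ℕ} {r0 r1 r2 : List ℕ}
    (h1 : tblOk T n E = true) (h2 : runOk T n f s = true) (h3 : pairsOk T n (prs n) ls = true)
    (h4 : restOk T n x t0 t1 t2 r0 r1 r2 D = true) :
    ∃ x t0 t1 t2 : Fin n, Good (gr T n) x t0 t1 t2 := by
  simp only [restOk, Bool.and_eq_true, decide_eq_true_eq] at h4
  obtain ⟨⟨⟨⟨⟨⟨⟨⟨⟨⟨⟨⟨hx, ht0, ht1, ht2, hn5⟩, h01, h02, h12⟩, hx0⟩, hx1⟩, hx2⟩, hnb⟩, hsq⟩,
    htri⟩, hr0⟩, hr1⟩, hr2⟩, hdd⟩ := h4
  have hlist : ∀ u v : ℕ, adjB T u v = true → ∃ p ∈ nb T u, p.2 = v := by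
    intro u v h
    simp only [adjB, Bool.and_eq_true, adjT, List.any_eq_true, beq_iff_eq] at h
    exact h.1.2
  refine ⟨⟨x, hx⟩, ⟨t0, ht0⟩, ⟨t1, ht1⟩, ⟨t2, ht2⟩, ?_⟩
  refine
    { nfac := nfac_of_run T n E f s h1 h2
      pairs := pairs_of_ok h3
      tri := ?_
      sq := ?_
      nbr := ?_
      t01 := ?_
      t02 := ?_
      t12 := ?_
      far := ?_
      r0 := ?_
      r1 := ?_
      r2 := ?_
      dd := ?_ }
  · intro u v w huv hvw huw
    obtain ⟨p, hp, hpv⟩ := hlist _ _ huv
    obtain ⟨q, hq, hqw⟩ := hlist _ _ hvw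
    simp only [triOk, List.all_eq_true, List.mem_range] at htri
    have h5 := htri u.val u.2 p hp q (by rw [hpv]; exact hq)
    rw [hqw] at h5
    have h6 : adjB T u.val w.val = true := huw
    rw [h6] at h5
    exact absurd h5 (by decide)
  · intro a b c d hac hbd hab hbc hcd hda
    obtain ⟨p, hp, hpv⟩ := hlist _ _ hab
    obtain ⟨q, hq, hqv⟩ := hlist _ _ hbc
    obtain ⟨r, hr, hrv⟩ := hlist _ _ hcd
    simp only [sqOk, List.all_eq_true, List.mem_range] at hsq
    have h5 := hsq a.val a.2 p hp q (by rw [hpv]; exact hq) r (by rw [hqv]; exact hr)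
    simp only [Bool.or_eq_true, beq_iff_eq] at h5
    rcases h5 with (h5 | h5) | h5
    · exact hac (Fin.ext (by rw [← hqv, h5]))
    · exact hbd (Fin.ext (by rw [← hpv, ← h5, hrv]))
    · rw [hrv] at h5
      have h6 : adjB T d.val a.val = true := hda
      rw [h6] at h5
      exact absurd h5 (by decide)
  · intro w
    constructor
    · intro h
      obtain ⟨p, hp, hpw⟩ := hlist _ _ h
      rw [List.all_eq_true] at hnb
      have h5 := hnb p hp
      simp only [Bool.or_eq_true, beq_iff_eq] at h5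
      rw [hpw] at h5
      rcases h5 with (h5 | h5) | h5
      · exact Or.inl (Fin.ext h5)
      · exact Or.inr (Or.inl (Fin.ext h5))
      · exact Or.inr (Or.inr (Fin.ext h5))
    · rintro (rfl | rfl | rfl)
      · exact hx0
      · exact hx1
      · exact hx2
  · exact fun h => h01 (congrArg Fin.val h)
  · exact fun h => h02 (congrArg Fin.val h)
  · exact fun h => h12 (congrArg Fin.val h)
  · by_contra hcon
    have h5 : (Finset.univ : Finset (Fin n)) ⊆
        {(⟨x, hx⟩ : Fin n), ⟨t0, ht0⟩, ⟨t1, ht1⟩, ⟨t2, ht2⟩} := by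
      intro w _
      by_contra hw
      simp only [Finset.mem_insert, Finset.mem_singleton, not_or] at hw
      exact hcon ⟨w, hw.1, hw.2.1, hw.2.2.1, hw.2.2.2⟩
    have h6 := Finset.card_le_card h5
    rw [Finset.card_univ, Fintype.card_fin] at h6
    have h7 := h6.trans Finset.card_le_four
    omega
  · refine (pok_sound hr0 ht1 ht2).congr fun w => ?_
    simp [Fin.ext_iff]
  · refine (pok_sound hr1 ht0 ht2).congr fun w => ?_
    simp [Fin.ext_iff]
  · refine (pok_sound hr2 ht0 ht1).congr fun w => ?_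
    simp [Fin.ext_iff]
  · intro u hux hu0 hu1 hu2
    simp only [ddOk, List.all_eq_true, List.mem_range, Bool.or_eq_true, beq_iff_eq] at hdd
    rcases hdd u.val u.2 with ((((h5 | h5) | h5) | h5) | h5) | h5
    · exact absurd (Fin.ext h5) hux
    · exact absurd (Fin.ext h5) hu0
    · exact absurd (Fin.ext h5) hu1
    · exact absurd (Fin.ext h5) hu2
    · refine Or.inl ((pok_sound h5 u.2 ht1).congr fun w => ?_)
      simp [Fin.ext_iff]
    · refine Or.inr ((pok_sound h5 u.2 ht2).congr fun w => ?_)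
      simp [Fin.ext_iff]

end Pool.Mnh583
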