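import Pool.Agent.Mnh583.Base

/-! Base graphs: paths given by lists, checked by computation. -/

set_option autoImplicit false

namespace Pool.Mnh583

/-- The bit mask of a list. -/
def msk : List ℕ → ℕ
  | [] => 0
  | a :: l => 1 <<< a ||| msk l

/-- Consecutive entries are adjacent. -/
def chB (T : List (List (ℕ × ℕ))) : List ℕ → Bool
  | [] => true
  | [_] => true
  | a :: b :: l => adjB T a b && chB T (b :: l)

/-- `l` is a path from `u` to `v` through all vertices except those of `ex`. -/
def pok (T : List (List (ℕ × ℕ))) (n : ℕ) (ex l : List ℕ) (u v : ℕ) : Bool :=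
  l.head? == some u && l.getLast? == some v && chB T l && Nat.beq (l.length + ex.length) n &&
    Nat.beq (msk l ||| msk ex) (2 ^ n - 1)

private theorem baseQ_testBit_msk (l : List ℕ) (w : ℕ) : (msk l).testBit w = true ↔ w ∈ l := by
  induction l with
  | nil => simp [msk]
  | cons a l ih =>
    rw [msk, Nat.testBit_or, Bool.or_eq_true, ih, Nat.one_shiftLeft, Nat.testBit_two_pow,
      List.mem_cons, decide_eq_true_iff, eq_comm]

private theorem baseQ_chain (T : List (List (ℕ × ℕ))) : ∀ l : List ℕ, chB T l = true →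
    l.IsChain (fun a b => adjB T a b = true)
  | [], _ => List.IsChain.nil
  | [_], _ => List.IsChain.singleton _
  | a :: b :: l, h => by
    rw [chB, Bool.and_eq_true] at h
    exact List.IsChain.cons_cons h.1 (baseQ_chain T (b :: l) h.2)

/-- Every `w < n` is in `l` or in `ex` (bits of the mask); as the lengths add up to `n`,
`l ++ ex` has no repetition and only entries `< n`. The list of the path: `l.attach`/`pmap`. -/
theorem pok_sound {T : List (List (ℕ × ℕ))} {n : ℕ} {ex l : List ℕ} {u v : ℕ}
    (h : pok T n ex l u v = true) (hu : u < n) (hv : v < n) :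
    HP (gr T n) (fun w => ∀ e ∈ ex, w.val ≠ e) ⟨u, hu⟩ ⟨v, hv⟩ := by
  simp only [pok, Bool.and_eq_true, beq_iff_eq, Nat.beq_eq] at h
  obtain ⟨⟨⟨⟨h1, h2⟩, h3⟩, h4⟩, h5⟩ := h
  have hmem : ∀ w, w ∈ l ++ ex ↔ w < n := by
    intro w
    have := congrArg (fun m => m.testBit w = true) h5
    simp only [Nat.testBit_or, Bool.or_eq_true, baseQ_testBit_msk, Nat.testBit_two_pow_sub_one,
      decide_eq_true_eq, eq_iff_iff] at this
    rw [List.mem_append, this]
  have hperm : (List.range n).Perm (l ++ ex) := by
    refine List.Subperm.perm_of_length_le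
      (List.nodup_range.subperm fun w hw => (hmem w).2 (List.mem_range.1 hw)) ?_
    rw [List.length_append, h4, List.length_range]
  have hnd : (l ++ ex).Nodup := hperm.nodup_iff.1 List.nodup_range
  have hlt : ∀ a ∈ l, a < n := fun a ha => (hmem a).1 (List.mem_append_left _ ha)
  let l' : List (Fin n) := l.pmap (fun a ha => ⟨a, ha⟩) hlt
  have hmap : l'.map Fin.val = l := by
    simp [l', List.map_pmap]
  have hm : ∀ w : Fin n, w ∈ l' ↔ w.val ∈ l := by
    intro w
    conv_rhs => rw [← hmap]
    rw [List.mem_map]
    constructor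
    · intro hw
      exact ⟨w, hw, rfl⟩
    · rintro ⟨w', hw', he⟩
      rwa [← Fin.ext he]
  refine ⟨l', ?_, ?_, ?_, ?_, ?_⟩
  · refine List.Nodup.of_map Fin.val ?_
    rw [hmap]
    exact (List.nodup_append.1 hnd).1
  · have h6 := baseQ_chain T l h3
    rw [← hmap, List.isChain_map] at h6
    exact h6
  · rw [← hmap, List.head?_map] at h1
    obtain ⟨a, ha, hau⟩ := Option.map_eq_some_iff.1 h1
    rw [ha]
    exact congrArg some (Fin.ext hau)
  · rw [← hmap, List.getLast?_map] at h2
    obtain ⟨a, ha, hau⟩ := Option.map_eq_some_iff.1 h2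
    rw [ha]
    exact congrArg some (Fin.ext hau)
  · intro w
    rw [hm]
    constructor
    · intro hw e he hwe
      exact (List.nodup_append.1 hnd).2.2 _ hw _ he hwe
    · intro hw
      rcases List.mem_append.1 ((hmem w.val).2 w.isLt) with h7 | h7
      · exact h7
      · exact absurd rfl (hw _ h7)

end Pool.Mnh583
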