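import Pool.Agent.Mnh583.Defs

/-! A Hamiltonian graph has a connected 2-factor. -/

set_option autoImplicit false

namespace Pool.Mnh583

variable {V : Type} {G : SimpleGraph V} {u v : V}

/-- `C = p.toSubgraph.spanningCoe` for a Hamiltonian cycle `p`:
`Walk.IsCycle.ncard_neighborSet_toSubgraph_eq_two`, `Walk.toSubgraph_connected`. -/
theorem exists_fac [Fintype V] [DecidableEq V] (hV : Fintype.card V ≠ 1)
    (h : G.IsHamiltonian) : ∃ C, Fac G C := by
  obtain ⟨a, p, hp⟩ := h hV
  refine ⟨p.toSubgraph.spanningCoe, ?_, ?_, ?_⟩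
  · intro u v huv
    exact p.toSubgraph.adj_sub huv
  · intro v
    have h2 := hp.isCycle.ncard_neighborSet_toSubgraph_eq_two (hp.mem_support v)
    obtain ⟨a, b, hab, hs⟩ := Set.ncard_eq_two.mp h2
    refine ⟨a, b, hab, fun w => ?_⟩
    have : w ∈ p.toSubgraph.neighborSet v ↔ w ∈ ({a, b} : Set V) := by rw [hs]
    simpa [SimpleGraph.Subgraph.mem_neighborSet] using this
  · intro X hX hstep v
    obtain ⟨u, hu⟩ := hX
    have hconn := p.toSubgraph_connected
    have hmem : ∀ w, w ∈ p.toSubgraph.verts := fun w => by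
      rw [SimpleGraph.Walk.mem_verts_toSubgraph]; exact hp.mem_support w
    have hr : p.toSubgraph.coe.Reachable ⟨u, hmem u⟩ ⟨v, hmem v⟩ := hconn.coe.preconnected _ _
    obtain ⟨q⟩ := hr
    have key : ∀ (x y : p.toSubgraph.verts) (q : p.toSubgraph.coe.Walk x y), X x.1 → X y.1 := by
      intro x y q
      induction q with
      | nil => exact id
      | cons hadj _ ih =>
        intro hx
        exact ih (hstep _ _ hadj hx)
    exact key _ _ q hu

end Pool.Mnh583
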