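import Pool.Agent.Mnh583.Defs

/-! Girth five. -/

set_option autoImplicit false

namespace Pool.Mnh583

variable {V : Type} {G : SimpleGraph V} {u v : V}

/-- No cycle of length 3 or 4, a cycle of length 5. -/
theorem girth_eq_five (htri : ∀ u v w, G.Adj u v → G.Adj v w → ¬ G.Adj u w)
    (hsq : ∀ a b c d, a ≠ c → b ≠ d → G.Adj a b → G.Adj b c → G.Adj c d → ¬ G.Adj d a)
    (hf : ∃ a b c d e, a ≠ c ∧ a ≠ d ∧ b ≠ d ∧ b ≠ e ∧ c ≠ e ∧ G.Adj a b ∧ G.Adj b c ∧
      G.Adj c d ∧ G.Adj d e ∧ G.Adj e a) :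
    G.girth = 5 := by
  obtain ⟨a, b, c, d, e, hac, had, hbd, hbe, hce, hab, hbc, hcd, hde, hea⟩ := hf
  have hcyc : ((SimpleGraph.Walk.cons hab (SimpleGraph.Walk.cons hbc
      (SimpleGraph.Walk.cons hcd (SimpleGraph.Walk.cons hde
      (SimpleGraph.Walk.cons hea SimpleGraph.Walk.nil))))) :
      G.Walk a a).IsCycle := by
    rw [SimpleGraph.Walk.cons_isCycle_iff]
    have h1 := hab.ne
    have h2 := hbc.ne
    have h3 := hcd.ne
    have h4 := hde.ne
    have h5 := hea.ne
    constructor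
    · simp [SimpleGraph.Walk.cons_isPath_iff, SimpleGraph.Walk.support_cons]
      refine ⟨⟨⟨?_, ?_⟩, ?_⟩, ?_⟩ <;> tauto
    · simp [SimpleGraph.Walk.edges_cons]
      tauto
  have hle : G.girth ≤ 5 := by
    have := SimpleGraph.girth_le_length hcyc
    simpa using this
  have hacyc : ¬ G.IsAcyclic := fun h => h _ hcyc
  have h3 : 3 ≤ G.girth := SimpleGraph.three_le_girth hacyc
  have hne : G.girth ≠ 3 := by
    intro h
    obtain ⟨x, w, hw, hl⟩ := SimpleGraph.exists_girth_eq_length.mpr hacyc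
    rw [h] at hl
    match w, hw, hl with
    | .cons h1 (.cons h2 (.cons h3 .nil)), hw, hl =>
      exact htri _ _ _ h1 h2 h3.symm
  have hne4 : G.girth ≠ 4 := by
    intro h
    obtain ⟨x, w, hw, hl⟩ := SimpleGraph.exists_girth_eq_length.mpr hacyc
    rw [h] at hl
    match w, hw, hl with
    | .cons (v := p) h1 (.cons (v := q) h2 (.cons (v := r) h3 (.cons h4 .nil))), hw, hl =>
      have hnd := hw.support_nodup
      simp only [SimpleGraph.Walk.support_cons, SimpleGraph.Walk.support_nil, List.tail_cons,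
        List.nodup_cons, List.mem_cons, not_or] at hnd
      exact hsq x p q r (fun h => hnd.2.1.2.1 h.symm) hnd.1.2.1 h1 h2 h3 h4
  omega

end Pool.Mnh583
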