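import Pool.Agent.Mnh583.Step
import Pool.Agent.Mnh583.Ham
import Pool.Agent.Mnh583.B10
import Pool.Agent.Mnh583.B16
import Pool.Agent.Mnh583.B17
import Pool.Agent.Mnh583.B18
import Pool.Agent.Mnh583.B19

/-! Graphs of all orders. -/

set_option autoImplicit false

namespace Pool.Mnh583

/-- A cycle of length five. -/
def Five {V : Type} (G : SimpleGraph V) : Prop :=
  ∃ a b c d e, a ≠ c ∧ a ≠ d ∧ b ≠ d ∧ b ≠ e ∧ c ≠ e ∧ G.Adj a b ∧ G.Adj b c ∧
    G.Adj c d ∧ G.Adj d e ∧ G.Adj e a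

/-- There is a graph with `n` vertices satisfying the inductive hypothesis, with a cycle of length
five. -/
def Ex (n : ℕ) : Prop :=
  ∃ (V : Type) (_ : Fintype V) (G : SimpleGraph V) (x t0 t1 t2 : V),
    Fintype.card V = n ∧ Good G x t0 t1 t2 ∧ Five G

theorem Ex.of_fin {n : ℕ} {G : SimpleGraph (Fin n)}
    (h : ∃ x t0 t1 t2 : Fin n, Good G x t0 t1 t2) (h5 : Five G) : Ex n := by
  obtain ⟨x, t0, t1, t2, h⟩ := h
  exact ⟨Fin n, inferInstance, G, x, t0, t1, t2, Fintype.card_fin n, h, h5⟩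

theorem Ex.succ {n : ℕ} (h : Ex n) : Ex (n + 5) := by
  obtain ⟨V, _, G, x, t0, t1, t2, hn, hG, -⟩ := h
  exact ⟨V ⊕ Fin 5, inferInstance, phi G x t0 t1 t2, Sum.inl x, Sum.inl t0, Sum.inr 0, Sum.inr 4,
    by rw [Fintype.card_sum, Fintype.card_fin, hn], step hG, phi_five hG⟩

/-- A cycle of length five in a table. -/
def fiveOk (T : List (List (ℕ × ℕ))) (n a b c d e : ℕ) : Bool :=
  decide (a < n ∧ b < n ∧ c < n ∧ d < n ∧ e < n) &&
  decide (a ≠ c ∧ a ≠ d ∧ b ≠ d ∧ b ≠ e ∧ c ≠ e) &&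
  adjB T a b && adjB T b c && adjB T c d && adjB T d e && adjB T e a

theorem five_of_ok {T : List (List (ℕ × ℕ))} {n a b c d e : ℕ}
    (h : fiveOk T n a b c d e = true) : Five (gr T n) := by
  simp only [fiveOk, Bool.and_eq_true, decide_eq_true_eq] at h
  obtain ⟨⟨⟨⟨⟨⟨⟨ha, hb, hc, hd, he⟩, h1, h2, h3, h4, h5⟩, hab⟩, hbc⟩, hcd⟩, hde⟩, hea⟩ := h
  exact ⟨⟨a, ha⟩, ⟨b, hb⟩, ⟨c, hc⟩, ⟨d, hd⟩, ⟨e, he⟩, fun h => h1 (congrArg Fin.val h),
    fun h => h2 (congrArg Fin.val h), fun h => h3 (congrArg Fin.val h),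
    fun h => h4 (congrArg Fin.val h), fun h => h5 (congrArg Fin.val h), hab, hbc, hcd, hde, hea⟩

theorem ex10 : Ex 10 := Ex.of_fin B10.good (five_of_ok (a := 0) (b := 1) (c := 2) (d := 3)
  (e := 4) (by decide +kernel))

theorem ex16 : Ex 16 := Ex.of_fin B16.good (five_of_ok (a := 0) (b := 2) (c := 4) (d := 6)
  (e := 7) (by decide +kernel))

theorem ex18 : Ex 18 := Ex.of_fin B18.good (five_of_ok (a := 0) (b := 2) (c := 10) (d := 1)
  (e := 11) (by decide +kernel))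

theorem ex19 : Ex 19 := Ex.of_fin B19.good (five_of_ok (a := 0) (b := 1) (c := 7) (d := 15)
  (e := 9) (by decide +kernel))

theorem ex17 : Ex 17 := Ex.of_fin B17.good (five_of_ok (a := 0) (b := 7) (c := 5) (d := 2)
  (e := 10) (by decide +kernel))

theorem ex_all (n : ℕ) (hn : 15 ≤ n) : Ex n := by
  induction n using Nat.strong_induction_on with
  | _ n ih =>
    by_cases h : 20 ≤ n
    · obtain ⟨m, rfl⟩ := Nat.exists_eq_add_of_le' (show 5 ≤ n by omega)
      exact (ih m (by omega) (by omega)).succ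
    · have h1 : n = 15 ∨ n = 16 ∨ n = 17 ∨ n = 18 ∨ n = 19 := by omega
      rcases h1 with rfl | rfl | rfl | rfl | rfl
      · exact ex10.succ
      · exact ex16
      · exact ex17
      · exact ex18
      · exact ex19

theorem main (n : ℕ) (hn : n = 10 ∨ 15 ≤ n) :
    ∃ G : SimpleGraph (Fin n), ¬ G.IsHamiltonian ∧
      (∀ u v : Fin n, u ≠ v → ¬ G.Adj u v → (G ⊔ SimpleGraph.edge u v).IsHamiltonian) ∧
      G.girth = 5 := by
  have h : Ex n := by
    rcases hn with rfl | hn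
    · exact ex10
    · exact ex_all n hn
  obtain ⟨V, _, G, x, t0, t1, t2, hn, hG, h5⟩ := h
  exact of_good hG hn h5

end Pool.Mnh583
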