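import Pool.Agent.Mnh583.NFacA

/-! A connected 2-factor of `phi` gives one of `G`. -/

set_option autoImplicit false

namespace Pool.Mnh583

variable {V : Type} {G : SimpleGraph V} {x t0 t1 t2 : V}

/-- the projection -/
private def pi_NFac (x : V) : V ⊕ Fin 5 → V
  | .inl u => u
  | .inr _ => x

/-- the neighbour of `h_r` outside of the hexagon -/
private def tv_NFac (t0 t1 t2 : V) : Fin 6 → V := ![t0, t1, t2, t0, t1, t2]

private theorem gv_tv_NFac (r : Fin 6) :
    gv x t0 t1 t2 ⟨r.val % 3 + 6, by omega⟩ = .inl (tv_NFac t0 t1 t2 r) := by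
  fin_cases r <;> rfl

private theorem pi_gv_NFac (r : Fin 6) : pi_NFac x (gv x t0 t1 t2 ⟨r.val, by omega⟩) = x := by
  fin_cases r <;> rfl

private theorem hex_NFac {a : V ⊕ Fin 5} (h : pi_NFac x a = x) :
    ∃ r : Fin 6, a = gv x t0 t1 t2 ⟨r.val, by omega⟩ := by
  rcases a with u | i
  · have hu : u = x := h
    exact ⟨0, by rw [hu]; rfl⟩
  · fin_cases i
    · exact ⟨1, rfl⟩
    · exact ⟨2, rfl⟩
    · exact ⟨3, rfl⟩
    · exact ⟨4, rfl⟩
    · exact ⟨5, rfl⟩

private theorem hexadj_NFac {r : Fin 6} {w : V} (hw : w ≠ x)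
    (h : (phi G x t0 t1 t2).Adj (gv x t0 t1 t2 ⟨r.val, by omega⟩) (.inl w)) :
    w = tv_NFac t0 t1 t2 r := by
  fin_cases r
  · have h' : phiAdj G x t0 t1 t2 (.inl x) (.inl w) := h
    by_contra hne
    exact h'.2.1 ⟨rfl, hne⟩
  all_goals
    first
    | (have h' : phiAdj G x t0 t1 t2 (.inr 0) (.inl w) := h
       rcases h' with h' | h' | h' | h'
       · exact absurd h'.1 hw
       · exact absurd h'.2 (by decide)
       · exact h'.1
       · exact absurd h'.2 (by decide))
    | (have h' : phiAdj G x t0 t1 t2 (.inr 1) (.inl w) := h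
       rcases h' with h' | h' | h' | h'
       · exact absurd h'.1 hw
       · exact absurd h'.2 (by decide)
       · exact absurd h'.2 (by decide)
       · exact h'.1)
    | (have h' : phiAdj G x t0 t1 t2 (.inr 2) (.inl w) := h
       rcases h' with h' | h' | h' | h'
       · exact absurd h'.1 hw
       · exact h'.1
       · exact absurd h'.2 (by decide)
       · exact absurd h'.2 (by decide))
    | (have h' : phiAdj G x t0 t1 t2 (.inr 3) (.inl w) := h
       rcases h' with h' | h' | h' | h'
       · exact absurd h'.1 hw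
       · exact absurd h'.2 (by decide)
       · exact h'.1
       · exact absurd h'.2 (by decide))
    | (have h' : phiAdj G x t0 t1 t2 (.inr 4) (.inl w) := h
       rcases h' with h' | h' | h' | h'
       · exact absurd h'.1 hw
       · exact absurd h'.2 (by decide)
       · exact absurd h'.2 (by decide)
       · exact h'.1)

private theorem tv_mod_NFac (hG : Good G x t0 t1 t2) {r s : Fin 6}
    (h : tv_NFac t0 t1 t2 r = tv_NFac t0 t1 t2 s) : r.val % 3 = s.val % 3 := by
  have h01 := hG.t01
  have h02 := hG.t02
  have h12 := hG.t12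
  fin_cases r <;> fin_cases s <;>
    first
    | rfl
    | exact absurd h h01
    | exact absurd h h02
    | exact absurd h h12
    | exact absurd h h01.symm
    | exact absurd h h02.symm
    | exact absurd h h12.symm

private theorem nbr_tv_NFac (hG : Good G x t0 t1 t2) (r : Fin 6) :
    G.Adj x (tv_NFac t0 t1 t2 r) := by
  rw [hG.nbr]
  fin_cases r
  · exact Or.inl rfl
  · exact Or.inr (Or.inl rfl)
  · exact Or.inr (Or.inr rfl)
  · exact Or.inl rfl
  · exact Or.inr (Or.inl rfl)
  · exact Or.inr (Or.inr rfl)

/-- an edge of `phi` between different fibres -/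
private theorem le_NFac (hG : Good G x t0 t1 t2) {a b : V ⊕ Fin 5}
    (hab : pi_NFac x a ≠ pi_NFac x b) (h : (phi G x t0 t1 t2).Adj a b) :
    G.Adj (pi_NFac x a) (pi_NFac x b) := by
  by_cases ha : pi_NFac x a = x
  · obtain ⟨r, rfl⟩ := hex_NFac (t0 := t0) (t1 := t1) (t2 := t2) ha
    rcases b with w | i
    · have hw : w ≠ x := fun h0 => hab (ha.trans h0.symm)
      have h1 := hexadj_NFac hw h
      rw [ha]
      change G.Adj x w
      rw [h1]
      exact nbr_tv_NFac hG r
    · exact absurd ha hab
  · by_cases hb : pi_NFac x b = x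
    · obtain ⟨r, rfl⟩ := hex_NFac (t0 := t0) (t1 := t1) (t2 := t2) hb
      rcases a with w | i
      · have hw : w ≠ x := ha
        have h1 := hexadj_NFac hw h.symm
        rw [hb]
        change G.Adj w x
        rw [h1]
        exact (nbr_tv_NFac hG r).symm
      · exact absurd rfl ha
    · rcases a with u | i
      · rcases b with w | j
        · exact h.1
        · exact absurd rfl hb
      · exact absurd rfl ha

/-- Let `π (inl u) = u`, `π (inr i) = x` and `C u w := u ≠ w ∧ ∃ a b, π a = u ∧ π b = w ∧
C'.Adj a b`. It is a connected 2-factor of `G`: `conn` from `conn` of `C'` (pull back the set);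
`le`: an edge of `phi` between different fibres of `π` is mapped to an edge of `G` (`nbr`);
`deg` at `x`: the two neighbours are `t_(p mod 3)` and `t_(q mod 3)` for `p, q` of `fac_gadget`;
`deg` at `u ≠ x`: `inl u` has two neighbours in `C'`, at most one of them in the hexagon
(if both are, `u = t_i` and both `f i`, `f (i + 3)` hold, against `p % 3 ≠ q % 3`), so their images
are distinct. -/
theorem phi_nfac (hG : Good G x t0 t1 t2) (C' : SimpleGraph (V ⊕ Fin 5)) :
    ¬ Fac (phi G x t0 t1 t2) C' := by
  intro hC
  obtain ⟨p, q, hpq, hf⟩ := fac_gadget hG hC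
  obtain ⟨C, hCdef⟩ : ∃ C : SimpleGraph V, ∀ u w, C.Adj u w ↔
      u ≠ w ∧ ∃ a b, pi_NFac x a = u ∧ pi_NFac x b = w ∧ C'.Adj a b :=
    ⟨{ Adj := fun u w => u ≠ w ∧ ∃ a b, pi_NFac x a = u ∧ pi_NFac x b = w ∧ C'.Adj a b
       symm := ⟨fun u w h => ⟨h.1.symm, by
          obtain ⟨a, b, h1, h2, h3⟩ := h.2
          exact ⟨b, a, h2, h1, h3.symm⟩⟩⟩
       loopless := ⟨fun u h => h.1 rfl⟩ }, fun u w => Iff.rfl⟩
  refine hG.nfac C ⟨?_, ?_, ?_⟩
  · intro u w h
    obtain ⟨hne, a, b, rfl, rfl, hab⟩ := (hCdef u w).1 h
    exact le_NFac hG hne (hC.le _ _ hab)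
  · intro v
    by_cases hv : v = x
    · subst hv
      refine ⟨tv_NFac t0 t1 t2 p, tv_NFac t0 t1 t2 q, fun h => hpq (tv_mod_NFac hG h),
        fun w => ?_⟩
      rw [hCdef]
      constructor
      · rintro ⟨hne, a, b, ha, hb, hab⟩
        obtain ⟨r, rfl⟩ := hex_NFac (t0 := t0) (t1 := t1) (t2 := t2) ha
        rcases b with w' | i
        · have hw : w' = w := hb
          subst hw
          have h1 := hexadj_NFac hne.symm (hC.le _ _ hab)
          have h2 : r = p ∨ r = q := by
            rw [← hf r, gv_tv_NFac, ← h1]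
            exact hab
          rcases h2 with rfl | rfl
          · exact Or.inl h1
          · exact Or.inr h1
        · exact absurd hb hne
      · intro h
        have key : ∀ r : Fin 6, (r = p ∨ r = q) → w = tv_NFac t0 t1 t2 r → v ≠ w ∧
            ∃ a b, pi_NFac v a = v ∧ pi_NFac v b = w ∧ C'.Adj a b := by
          intro r hr hw
          have h1 := (hf r).2 hr
          rw [gv_tv_NFac] at h1
          refine ⟨?_, _, _, pi_gv_NFac r, ?_, h1⟩
          · rw [hw]
            exact (nbr_tv_NFac hG r).ne
          · exact hw.symm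
        rcases h with h | h
        · exact key p (Or.inl rfl) h
        · exact key q (Or.inr rfl) h
    · obtain ⟨a', b', hne', hd⟩ := hC.deg (.inl v)
      have hAa : C'.Adj (.inl v) a' := (hd a').2 (Or.inl rfl)
      have hAb : C'.Adj (.inl v) b' := (hd b').2 (Or.inr rfl)
      have huniq : ∀ c : V ⊕ Fin 5, pi_NFac x c = v → c = .inl v := by
        intro c hc
        rcases c with u | i
        · have : u = v := hc
          rw [this]
        · exact absurd hc.symm hv
      have hv1 : ∀ c, C'.Adj (.inl v) c → v ≠ pi_NFac x c := by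
        intro c hc h0
        rw [huniq c h0.symm] at hc
        exact C'.loopless.irrefl _ hc
      refine ⟨pi_NFac x a', pi_NFac x b', ?_, fun w => ?_⟩
      · intro hab
        by_cases hx : pi_NFac x a' = x
        · have hx' : pi_NFac x b' = x := hab ▸ hx
          obtain ⟨r, rfl⟩ := hex_NFac (t0 := t0) (t1 := t1) (t2 := t2) hx
          obtain ⟨s, rfl⟩ := hex_NFac (t0 := t0) (t1 := t1) (t2 := t2) hx'
          have h1 := hexadj_NFac hv (hC.le _ _ hAa).symm
          have h2 := hexadj_NFac hv (hC.le _ _ hAb).symm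
          have h3 : r = p ∨ r = q := by
            rw [← hf r, gv_tv_NFac, ← h1]
            exact hAa.symm
          have h4 : s = p ∨ s = q := by
            rw [← hf s, gv_tv_NFac, ← h2]
            exact hAb.symm
          have h5 : r ≠ s := fun h0 => hne' (by rw [h0])
          have h6 := tv_mod_NFac hG (h1.symm.trans h2)
          rcases h3 with rfl | rfl <;> rcases h4 with rfl | rfl
          · exact h5 rfl
          · exact hpq h6
          · exact hpq h6.symm
          · exact h5 rfl
        · have hx' : pi_NFac x b' ≠ x := hab ▸ hx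
          rcases a' with u | i
          · rcases b' with w | j
            · have : u = w := hab
              exact hne' (by rw [this])
            · exact hx' rfl
          · exact hx rfl
      · rw [hCdef]
        constructor
        · rintro ⟨hne, a, b, ha, hb, hab⟩
          rw [huniq a ha] at hab
          rcases (hd b).1 hab with rfl | rfl
          · exact Or.inl hb.symm
          · exact Or.inr hb.symm
        · rintro (rfl | rfl)
          · exact ⟨hv1 _ hAa, _, _, rfl, rfl, hAa⟩
          · exact ⟨hv1 _ hAb, _, _, rfl, rfl, hAb⟩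
  · intro X hX hcl v
    have h := hC.conn (fun c => X (pi_NFac x c)) (by
      obtain ⟨u, hu⟩ := hX
      exact ⟨.inl u, hu⟩) (by
      intro a b hab ha
      by_cases h0 : pi_NFac x a = pi_NFac x b
      · rw [← h0]
        exact ha
      · exact hcl _ _ ((hCdef _ _).2 ⟨h0, a, b, rfl, rfl, hab⟩) ha) (.inl v)
    exact h

end Pool.Mnh583
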