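import Pool.Agent.Mnh583.Tools

/-! Hamilton paths of `phi` between two vertices of `G`. -/

set_option autoImplicit false

namespace Pool.Mnh583

variable {V : Type} {G : SimpleGraph V} {u v x t0 t1 t2 : V}

/-- The hexagon as a path. -/
private theorem hex_PairVV (hG : Good G x t0 t1 t2) (l : List (Fin 9)) (p q : Fin 9)
    (hn : l.Nodup) (hc : l.IsChain (fun a b => gadj a b = true)) (hp : l.head? = some p)
    (hq : l.getLast? = some q) (hl : ∀ a : Fin 9, a ∈ l ↔ a.val < 6) :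
    HP (phi G x t0 t1 t2) (fun w => w = Sum.inl x ∨ ∃ i : Fin 5, w = Sum.inr i)
      (gv x t0 t1 t2 p) (gv x t0 t1 t2 q) := by
  refine (HP.gad hG l p q hn hc hp hq).congr fun w => ?_
  constructor
  · rintro ⟨a, ha, rfl⟩
    have h6 := (hl a).1 ha
    have ha' : a = 0 ∨ a = 1 ∨ a = 2 ∨ a = 3 ∨ a = 4 ∨ a = 5 := by omega
    rcases ha' with rfl | rfl | rfl | rfl | rfl | rfl
    · exact Or.inl rfl
    · exact Or.inr ⟨0, rfl⟩
    · exact Or.inr ⟨1, rfl⟩
    · exact Or.inr ⟨2, rfl⟩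
    · exact Or.inr ⟨3, rfl⟩
    · exact Or.inr ⟨4, rfl⟩
  · rintro (rfl | ⟨i, rfl⟩)
    · exact ⟨0, (hl 0).2 (by decide), rfl⟩
    · fin_cases i
      · exact ⟨1, (hl 1).2 (by decide), rfl⟩
      · exact ⟨2, (hl 2).2 (by decide), rfl⟩
      · exact ⟨3, (hl 3).2 (by decide), rfl⟩
      · exact ⟨4, (hl 4).2 (by decide), rfl⟩
      · exact ⟨5, (hl 5).2 (by decide), rfl⟩

/-- The three parts together. -/
private theorem glue_PairVV (hG : Good G x t0 t1 t2) {S1 S2 : V → Prop} {a b : V}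
    {p q : V ⊕ Fin 5} (h1 : HP G S1 u a) (h2 : HP G S2 b v) (hS1 : ∀ w, S1 w → w ≠ x)
    (hS2 : ∀ w, S2 w → w ≠ x) (hd : ∀ w, S1 w → ¬ S2 w) (hall : ∀ w, w ≠ x → S1 w ∨ S2 w)
    (hh : HP (phi G x t0 t1 t2) (fun w => w = Sum.inl x ∨ ∃ i : Fin 5, w = Sum.inr i) p q)
    (ha : (phi G x t0 t1 t2).Adj (Sum.inl a) p) (hb : (phi G x t0 t1 t2).Adj q (Sum.inl b)) :
    HP (phi G x t0 t1 t2) (fun _ => True) (Sum.inl u) (Sum.inl v) := by
  have e1 := (HP.inl hG h1 hS1).append hh (by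
    rintro w ⟨c, hc, rfl⟩ (h | ⟨i, h⟩)
    · exact hS1 c hc (Sum.inl.inj h)
    · exact absurd h (by simp)) ha
  have e2 := e1.append (HP.inl hG h2 hS2) (by
    rintro w (⟨c, hc, rfl⟩ | rfl | ⟨i, rfl⟩) ⟨d, hd', h⟩
    · have : d = c := Sum.inl.inj h
      exact hd c hc (this ▸ hd')
    · exact hS2 d hd' (Sum.inl.inj h)
    · exact absurd h (by simp)) hb
  refine e2.congr fun w => ⟨fun _ => trivial, fun _ => ?_⟩
  rcases w with c | i
  · by_cases hc : c = x
    · exact Or.inl (Or.inr (Or.inl (by rw [hc])))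
    · rcases hall c hc with h | h
      · exact Or.inl (Or.inl ⟨c, h, rfl⟩)
      · exact Or.inr ⟨c, h, rfl⟩
  · exact Or.inl (Or.inr (Or.inr ⟨i, rfl⟩))

/-- From a neighbour of `a` to a neighbour of `b` through the hexagon. -/
private theorem cross_PairVV (hG : Good G x t0 t1 t2) {a b : V} (ha : G.Adj x a)
    (hb : G.Adj x b) (hab : a ≠ b) : ∃ p q : V ⊕ Fin 5,
    HP (phi G x t0 t1 t2) (fun w => w = Sum.inl x ∨ ∃ i : Fin 5, w = Sum.inr i) p q ∧
      (phi G x t0 t1 t2).Adj (Sum.inl a) p ∧ (phi G x t0 t1 t2).Adj q (Sum.inl b) := by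
  have h01 := hex_PairVV hG [0, 5, 4, 3, 2, 1] 0 1 (by decide) (by decide) rfl rfl (by decide)
  have h02 := hex_PairVV hG [0, 1, 2, 3, 4, 5] 0 5 (by decide) (by decide) rfl rfl (by decide)
  have h12 := hex_PairVV hG [1, 0, 5, 4, 3, 2] 1 2 (by decide) (by decide) rfl rfl (by decide)
  have a00 : (phi G x t0 t1 t2).Adj (Sum.inl t0) (gv x t0 t1 t2 0) := gv_adj hG 6 0 (by decide)
  have a11 : (phi G x t0 t1 t2).Adj (Sum.inl t1) (gv x t0 t1 t2 1) := gv_adj hG 7 1 (by decide)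
  have a22 : (phi G x t0 t1 t2).Adj (Sum.inl t2) (gv x t0 t1 t2 2) := gv_adj hG 8 2 (by decide)
  have a25 : (phi G x t0 t1 t2).Adj (Sum.inl t2) (gv x t0 t1 t2 5) := gv_adj hG 8 5 (by decide)
  rcases (hG.nbr a).1 ha with rfl | rfl | rfl <;> rcases (hG.nbr b).1 hb with rfl | rfl | rfl
  · exact absurd rfl hab
  · exact ⟨_, _, h01, a00, a11.symm⟩
  · exact ⟨_, _, h02, a00, a25.symm⟩
  · exact ⟨_, _, h01.symm, a11, a00.symm⟩
  · exact absurd rfl hab
  · exact ⟨_, _, h12, a11, a22.symm⟩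
  · exact ⟨_, _, h02.symm, a25, a00.symm⟩
  · exact ⟨_, _, h12.symm, a22, a11.symm⟩
  · exact absurd rfl hab

/-- `u, v` are not adjacent in `G`, so `hG.pairs u v` is a list `l`; `x ∈ l` is neither first nor
last: `l = l1 ++ x :: l2`, `l1 ≠ []`, `l2 ≠ []`, the last element `a` of `l1` and the first
element `b` of `l2` are adjacent to `x`, so in `{t0, t1, t2}`, and distinct. In `phi`:
`l1`, then the hexagon (`HP.gad`), then `l2`; the hexagon is traversed from a neighbour of `a` to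
one of `b`: `t0, t1`: `[0, 5, 4, 3, 2, 1]`; `t0, t2`: `[0, 1, 2, 3, 4, 5]`;
`t1, t2`: `[1, 0, 5, 4, 3, 2]`; the others by reversing. -/
theorem pair_VV (hG : Good G x t0 t1 t2) (hu : u ≠ x) (hv : v ≠ x) (huv : u ≠ v)
    (hn : ¬ G.Adj u v) :
    HP (phi G x t0 t1 t2) (fun _ => True) (Sum.inl u) (Sum.inl v) := by
  obtain ⟨l, hnd, hch, hhd, hlast, hmem⟩ := hG.pairs u v huv hn
  obtain ⟨l1, l2, rfl⟩ := List.append_of_mem ((hmem x).2 trivial)
  have hl1 : l1 ≠ [] := by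
    rintro rfl
    simp only [List.nil_append, List.head?_cons, Option.some.injEq] at hhd
    exact hu hhd.symm
  have hl2 : l2 ≠ [] := by
    rintro rfl
    rw [List.getLast?_append] at hlast
    simp only [List.getLast?_singleton, Option.some_or, Option.some.injEq] at hlast
    exact hv hlast.symm
  obtain ⟨l1', a, rfl⟩ : ∃ l1' a, l1 = l1' ++ [a] :=
    ⟨l1.dropLast, l1.getLast hl1, (List.dropLast_append_getLast hl1).symm⟩
  obtain ⟨b, l2', rfl⟩ := List.exists_cons_of_ne_nil hl2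
  rw [List.isChain_append] at hch
  obtain ⟨hc1, hc2, hc3⟩ := hch
  have hax : G.Adj a x := hc3 a (by simp) x (by simp)
  rw [List.isChain_cons_cons] at hc2
  have hxb : G.Adj x b := hc2.1
  rw [List.nodup_append] at hnd
  obtain ⟨hn1, hn2, hn3⟩ := hnd
  have hx2 : x ∉ b :: l2' := (List.nodup_cons.1 hn2).1
  have hx1 : x ∉ l1' ++ [a] := fun h => hn3 x h x (by simp) rfl
  have hab : a ≠ b := hn3 a (by simp) b (by simp)
  have h1 : HP G (fun w => w ∈ l1' ++ [a]) u a := by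
    refine ⟨l1' ++ [a], hn1, hc1, ?_, by simp, fun w => Iff.rfl⟩
    rw [List.head?_append] at hhd
    rcases hh : (l1' ++ [a]).head? with _ | c
    · rw [List.head?_eq_none_iff] at hh
      exact absurd hh (by simp)
    · rw [hh] at hhd
      simpa using hhd
  have h2 : HP G (fun w => w ∈ b :: l2') b v := by
    refine ⟨b :: l2', (List.nodup_cons.1 hn2).2, hc2.2, rfl, ?_, fun w => Iff.rfl⟩
    rw [List.getLast?_append, List.getLast?_cons_cons] at hlast
    rcases hh : (b :: l2').getLast? with _ | c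
    · rw [List.getLast?_eq_none_iff] at hh
      exact absurd hh (by simp)
    · rw [hh] at hlast
      simpa using hlast
  obtain ⟨p, q, hh, hp, hq⟩ := cross_PairVV hG hax.symm hxb hab
  refine glue_PairVV hG h1 h2 (fun w hw e => hx1 (e ▸ hw)) (fun w hw e => hx2 (e ▸ hw))
    (fun w hw hw' => hn3 w hw w (List.mem_cons_of_mem _ hw') rfl) (fun w hw => ?_) hh hp hq
  have h3 := (hmem w).2 trivial
  rw [List.mem_append, List.mem_cons] at h3
  rcases h3 with h3 | h3 | h3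
  · exact Or.inl h3
  · exact absurd h3 hw
  · exact Or.inr h3

end Pool.Mnh583
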