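import Pool.Agent.Mnh583.StepA

/-! `phi` has no cycle of length four, and it has one of length five. -/

set_option autoImplicit false

namespace Pool.Mnh583

variable {V : Type} {G : SimpleGraph V} {x t0 t1 t2 : V}

private theorem stepC_out (p : Fin 9) (hp : p < 6) (u : V) (hx : u ≠ x) (h0 : u ≠ t0)
    (h1 : u ≠ t1) (h2 : u ≠ t2) :
    ¬ (phi G x t0 t1 t2).Adj (gv x t0 t1 t2 p) (Sum.inl u) := by
  intro h
  have h' : phiAdj G x t0 t1 t2 (gv x t0 t1 t2 p) (Sum.inl u) := h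
  fin_cases p <;> first
    | exact absurd hp (by decide)
    | (simp [phiAdj, gv, hx, h0, h1, h2] at h')

private theorem stepC_nb (hG : Good G x t0 t1 t2) (p : Fin 9) (hp : p < 6) (w : V ⊕ Fin 5)
    (h : (phi G x t0 t1 t2).Adj (gv x t0 t1 t2 p) w) :
    ∃ q, w = gv x t0 t1 t2 q ∧ gadj p q = true := by
  rcases vtx_cases G x t0 t1 t2 w with ⟨q, rfl⟩ | ⟨u, rfl, hx, h0, h1, h2⟩
  · exact ⟨q, rfl, adj_gv hG p q h⟩
  · exact absurd h (stepC_out p hp u hx h0 h1 h2)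

private theorem stepC_four : ∀ p q r s : Fin 9, p < 6 → gadj p q = true → gadj p r = true →
    gadj q s = true → gadj s r = true → q ≠ r → s ≠ p → False := by
  decide +kernel

private theorem stepC_two : ∀ p q r : Fin 9, p < 6 → gadj p q = true → gadj p r = true →
    ¬ q < 6 → ¬ r < 6 → q = r := by
  decide +kernel

private theorem stepC_hex (hG : Good G x t0 t1 t2) (p : Fin 9) (hp : p < 6)
    (b c d : V ⊕ Fin 5) (hac : gv x t0 t1 t2 p ≠ c) (hbd : b ≠ d)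
    (h1 : (phi G x t0 t1 t2).Adj (gv x t0 t1 t2 p) b) (h2 : (phi G x t0 t1 t2).Adj b c)
    (h3 : (phi G x t0 t1 t2).Adj c d) (h4 : (phi G x t0 t1 t2).Adj d (gv x t0 t1 t2 p)) :
    False := by
  obtain ⟨q, rfl, hq⟩ := stepC_nb hG p hp b h1
  obtain ⟨r, rfl, hr⟩ := stepC_nb hG p hp d h4.symm
  have hqr : q ≠ r := fun h => hbd (by rw [h])
  rcases vtx_cases G x t0 t1 t2 c with ⟨s, rfl⟩ | ⟨u, rfl, hx, h0, h1', h2'⟩
  · exact stepC_four p q r s hp hq hr (adj_gv hG _ _ h2) (adj_gv hG _ _ h3) hqr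
      fun h => hac (by rw [h])
  · refine hqr (stepC_two p q r hp hq hr (fun h => ?_) fun h => ?_)
    · exact stepC_out q h u hx h0 h1' h2' h2
    · exact stepC_out r h u hx h0 h1' h2' h3.symm

private theorem stepC_vtx (w : V ⊕ Fin 5) :
    (∃ p : Fin 9, p < 6 ∧ w = gv x t0 t1 t2 p) ∨ ∃ u, w = Sum.inl u ∧ u ≠ x := by
  rcases w with u | i
  · by_cases h : u = x
    · exact Or.inl ⟨0, by decide, by rw [h]; rfl⟩
    · exact Or.inr ⟨u, rfl, h⟩
  · left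
    fin_cases i
    · exact ⟨1, by decide, rfl⟩
    · exact ⟨2, by decide, rfl⟩
    · exact ⟨3, by decide, rfl⟩
    · exact ⟨4, by decide, rfl⟩
    · exact ⟨5, by decide, rfl⟩

/-- No cycle of length four. -/
theorem phi_sq (hG : Good G x t0 t1 t2) (a b c d : V ⊕ Fin 5) (hac : a ≠ c) (hbd : b ≠ d)
    (h1 : (phi G x t0 t1 t2).Adj a b) (h2 : (phi G x t0 t1 t2).Adj b c)
    (h3 : (phi G x t0 t1 t2).Adj c d) : ¬ (phi G x t0 t1 t2).Adj d a := by
  intro h4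
  rcases stepC_vtx (x := x) (t0 := t0) (t1 := t1) (t2 := t2) a with ⟨p, hp, rfl⟩ | ⟨a', rfl, ha⟩
  · exact stepC_hex hG p hp b c d hac hbd h1 h2 h3 h4
  rcases stepC_vtx (x := x) (t0 := t0) (t1 := t1) (t2 := t2) b with ⟨p, hp, rfl⟩ | ⟨b', rfl, hb⟩
  · exact stepC_hex hG p hp c d (Sum.inl a') hbd hac.symm h2 h3 h4 h1
  rcases stepC_vtx (x := x) (t0 := t0) (t1 := t1) (t2 := t2) c with ⟨p, hp, rfl⟩ | ⟨c', rfl, hc⟩
  · exact stepC_hex hG p hp d (Sum.inl a') (Sum.inl b') hac.symm hbd.symm h3 h4 h1 h2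
  rcases stepC_vtx (x := x) (t0 := t0) (t1 := t1) (t2 := t2) d with ⟨p, hp, rfl⟩ | ⟨d', rfl, hd⟩
  · exact stepC_hex hG p hp (Sum.inl a') (Sum.inl b') (Sum.inl c') hbd.symm hac h4 h1 h2 h3
  exact hG.sq a' b' c' d' (fun h => hac (by rw [h])) (fun h => hbd (by rw [h])) h1.1 h2.1 h3.1 h4.1

/-- A cycle of length five. -/
theorem phi_five (hG : Good G x t0 t1 t2) : ∃ a b c d e : V ⊕ Fin 5, a ≠ c ∧ a ≠ d ∧ b ≠ d ∧
    b ≠ e ∧ c ≠ e ∧ (phi G x t0 t1 t2).Adj a b ∧ (phi G x t0 t1 t2).Adj b c ∧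
    (phi G x t0 t1 t2).Adj c d ∧ (phi G x t0 t1 t2).Adj d e ∧ (phi G x t0 t1 t2).Adj e a :=
  ⟨gv x t0 t1 t2 6, gv x t0 t1 t2 0, gv x t0 t1 t2 1, gv x t0 t1 t2 2, gv x t0 t1 t2 3,
    fun h => absurd (gv_inj hG h) (by decide), fun h => absurd (gv_inj hG h) (by decide),
    fun h => absurd (gv_inj hG h) (by decide), fun h => absurd (gv_inj hG h) (by decide),
    fun h => absurd (gv_inj hG h) (by decide), gv_adj hG 6 0 (by decide), gv_adj hG 0 1 (by decide),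
    gv_adj hG 1 2 (by decide), gv_adj hG 2 3 (by decide), gv_adj hG 3 6 (by decide)⟩

end Pool.Mnh583
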