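import Pool.Agent.Mnh583.Tools

/-! Adjacencies of `phi`. -/

set_option autoImplicit false

namespace Pool.Mnh583

variable {V : Type} {G : SimpleGraph V} {x t0 t1 t2 : V}

private theorem stepA_basic (hG : Good G x t0 t1 t2) :
    G.Adj x t0 ∧ G.Adj x t1 ∧ G.Adj x t2 ∧ ¬ G.Adj t0 t1 ∧ ¬ G.Adj t0 t2 ∧ ¬ G.Adj t1 t2 ∧
      x ≠ t0 ∧ x ≠ t1 ∧ x ≠ t2 := by
  have a0 : G.Adj x t0 := (hG.nbr t0).2 (Or.inl rfl)
  have a1 : G.Adj x t1 := (hG.nbr t1).2 (Or.inr (Or.inl rfl))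
  have a2 : G.Adj x t2 := (hG.nbr t2).2 (Or.inr (Or.inr rfl))
  exact ⟨a0, a1, a2, hG.tri t0 x t1 a0.symm a1, hG.tri t0 x t2 a0.symm a2,
    hG.tri t1 x t2 a1.symm a2, a0.ne, a1.ne, a2.ne⟩

/-- The adjacencies of `phi` in the gadget are only the ones of `gadj`, except between the `t`'s
(which are not adjacent, `tri` and `nbr`). -/
theorem adj_gv (hG : Good G x t0 t1 t2) (p q : Fin 9)
    (h : (phi G x t0 t1 t2).Adj (gv x t0 t1 t2 p) (gv x t0 t1 t2 q)) : gadj p q = true := by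
  obtain ⟨-, -, -, n01, n02, n12, x0, x1, x2⟩ := stepA_basic hG
  have n10 : ¬ G.Adj t1 t0 := fun h => n01 h.symm
  have n20 : ¬ G.Adj t2 t0 := fun h => n02 h.symm
  have n21 : ¬ G.Adj t2 t1 := fun h => n12 h.symm
  have t01 := hG.t01
  have t02 := hG.t02
  have t12 := hG.t12
  have h' : phiAdj G x t0 t1 t2 (gv x t0 t1 t2 p) (gv x t0 t1 t2 q) := h
  by_contra hc
  fin_cases p <;> fin_cases q <;> first
    | exact hc rfl
    | (simp [phiAdj, gv, n01, n02, n12, n10, n20, n21, x0, x1, x2, x0.symm, x1.symm, x2.symm,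
        t01, t02, t12, t01.symm, t02.symm, t12.symm] at h')

/-- A vertex of `phi` is a vertex of the gadget or `inl u` with `u ≠ x, t0, t1, t2`. -/
theorem vtx_cases (G : SimpleGraph V) (x t0 t1 t2 : V) (w : V ⊕ Fin 5) :
    (∃ p, w = gv x t0 t1 t2 p) ∨
      ∃ u, w = Sum.inl u ∧ u ≠ x ∧ u ≠ t0 ∧ u ≠ t1 ∧ u ≠ t2 := by
  rcases w with u | i
  · by_cases h0 : u = x
    · exact Or.inl ⟨0, by rw [h0]; rfl⟩
    by_cases h1 : u = t0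
    · exact Or.inl ⟨6, by rw [h1]; rfl⟩
    by_cases h2 : u = t1
    · exact Or.inl ⟨7, by rw [h2]; rfl⟩
    by_cases h3 : u = t2
    · exact Or.inl ⟨8, by rw [h3]; rfl⟩
    exact Or.inr ⟨u, rfl, h0, h1, h2, h3⟩
  · left
    fin_cases i
    · exact ⟨1, rfl⟩
    · exact ⟨2, rfl⟩
    · exact ⟨3, rfl⟩
    · exact ⟨4, rfl⟩
    · exact ⟨5, rfl⟩

private theorem stepA_two (hG : Good G x t0 t1 t2) {u w : V} {i : Fin 5}
    (h : (phi G x t0 t1 t2).Adj (.inl u) (.inl w))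
    (h1 : (phi G x t0 t1 t2).Adj (.inl u) (.inr i))
    (h2 : (phi G x t0 t1 t2).Adj (.inl w) (.inr i)) : False := by
  obtain ⟨-, -, -, n01, n02, n12, x0, x1, x2⟩ := stepA_basic hG
  have n10 : ¬ G.Adj t1 t0 := fun h => n01 h.symm
  have n20 : ¬ G.Adj t2 t0 := fun h => n02 h.symm
  have n21 : ¬ G.Adj t2 t1 := fun h => n12 h.symm
  have t01 := hG.t01
  have t02 := hG.t02
  have t12 := hG.t12
  obtain ⟨h3, h4, h5⟩ : G.Adj u w ∧ ¬ (u = x ∧ w ≠ t0) ∧ ¬ (w = x ∧ u ≠ t0) := h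
  have h1' : (u = x ∧ (i = 0 ∨ i = 4)) ∨ (u = t0 ∧ i = 2) ∨
      (u = t1 ∧ (i = 0 ∨ i = 3)) ∨ (u = t2 ∧ (i = 1 ∨ i = 4)) := h1
  have h2' : (w = x ∧ (i = 0 ∨ i = 4)) ∨ (w = t0 ∧ i = 2) ∨
      (w = t1 ∧ (i = 0 ∨ i = 3)) ∨ (w = t2 ∧ (i = 1 ∨ i = 4)) := h2
  have hirr := G.loopless.irrefl
  rcases h1' with ⟨rfl, hi⟩ | ⟨rfl, hi⟩ | ⟨rfl, hi⟩ | ⟨rfl, hi⟩ <;>
    rcases h2' with ⟨rfl, hj⟩ | ⟨rfl, hj⟩ | ⟨rfl, hj⟩ | ⟨rfl, hj⟩ <;>
    first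
    | exact hirr _ h3
    | exact n01 h3
    | exact n02 h3
    | exact n12 h3
    | exact n10 h3
    | exact n20 h3
    | exact n21 h3
    | exact h4 ⟨rfl, t01.symm⟩
    | exact h4 ⟨rfl, t02.symm⟩
    | exact h5 ⟨rfl, t01.symm⟩
    | exact h5 ⟨rfl, t02.symm⟩
    | (rw [hj] at hi; revert hi; decide)
    | (rw [hi] at hj; revert hj; decide)

private theorem stepA_one (hG : Good G x t0 t1 t2) {u : V} {i j : Fin 5}
    (h : (phi G x t0 t1 t2).Adj (.inr i) (.inr j))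
    (h1 : (phi G x t0 t1 t2).Adj (.inl u) (.inr i))
    (h2 : (phi G x t0 t1 t2).Adj (.inl u) (.inr j)) : False := by
  obtain ⟨-, -, -, -, -, -, x0, x1, x2⟩ := stepA_basic hG
  have t01 := hG.t01
  have t02 := hG.t02
  have t12 := hG.t12
  have h3 : (i : ℕ) + 1 = j ∨ (j : ℕ) + 1 = i := h
  have h1' : (u = x ∧ (i = 0 ∨ i = 4)) ∨ (u = t0 ∧ i = 2) ∨
      (u = t1 ∧ (i = 0 ∨ i = 3)) ∨ (u = t2 ∧ (i = 1 ∨ i = 4)) := h1
  have h2' : (u = x ∧ (j = 0 ∨ j = 4)) ∨ (u = t0 ∧ j = 2) ∨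
      (u = t1 ∧ (j = 0 ∨ j = 3)) ∨ (u = t2 ∧ (j = 1 ∨ j = 4)) := h2
  rcases h1' with ⟨e1, hi⟩ | ⟨e1, hi⟩ | ⟨e1, hi⟩ | ⟨e1, hi⟩ <;>
    rcases h2' with ⟨e2, hj⟩ | ⟨e2, hj⟩ | ⟨e2, hj⟩ | ⟨e2, hj⟩ <;>
    first
    | exact x0 (e1.symm.trans e2)
    | exact x1 (e1.symm.trans e2)
    | exact x2 (e1.symm.trans e2)
    | exact t01 (e1.symm.trans e2)
    | exact t02 (e1.symm.trans e2)
    | exact t12 (e1.symm.trans e2)
    | exact x0 (e2.symm.trans e1)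
    | exact x1 (e2.symm.trans e1)
    | exact x2 (e2.symm.trans e1)
    | exact t01 (e2.symm.trans e1)
    | exact t02 (e2.symm.trans e1)
    | exact t12 (e2.symm.trans e1)
    | (clear h h1 h2 e1 e2; revert i j; decide)

/-- `t0, t1, t2` are pairwise not adjacent. -/
theorem phi_tri (hG : Good G x t0 t1 t2) (a b c : V ⊕ Fin 5)
    (h1 : (phi G x t0 t1 t2).Adj a b) (h2 : (phi G x t0 t1 t2).Adj b c) :
    ¬ (phi G x t0 t1 t2).Adj a c := by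
  intro h3
  rcases a with a | a <;> rcases b with b | b <;> rcases c with c | c
  · have e1 : G.Adj a b := h1.1
    have e2 : G.Adj b c := h2.1
    have e3 : G.Adj a c := h3.1
    exact hG.tri a b c e1 e2 e3
  · exact stepA_two hG h1 h3 h2
  · exact stepA_two hG h3 h1 h2.symm
  · exact stepA_one hG h2 h1 h3
  · exact stepA_two hG h2 h1.symm h3.symm
  · exact stepA_one hG h3 h1.symm h2
  · exact stepA_one hG h1 h3.symm h2.symm
  · have e1 : (a : ℕ) + 1 = b ∨ (b : ℕ) + 1 = a := h1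
    have e2 : (b : ℕ) + 1 = c ∨ (c : ℕ) + 1 = b := h2
    have e3 : (a : ℕ) + 1 = c ∨ (c : ℕ) + 1 = a := h3
    omega

end Pool.Mnh583
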