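import Pool.Agent.Mnh583.Tab
import Pool.Agent.Mnh583.StepA
import Pool.Agent.Mnh583.PairVV

/-! Hamilton paths of `phi` between all nonadjacent vertices. -/

set_option autoImplicit false

namespace Pool.Mnh583

variable {V : Type} {G : SimpleGraph V} {x t0 t1 t2 : V}

private theorem StepB_VV (hG : Good G x t0 t1 t2) (u v : V) (hu : u ≠ x) (hv : v ≠ x)
    (hab : (Sum.inl u : V ⊕ Fin 5) ≠ Sum.inl v)
    (hn : ¬ (phi G x t0 t1 t2).Adj (Sum.inl u) (Sum.inl v)) :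
    HP (phi G x t0 t1 t2) (fun _ => True) (Sum.inl u) (Sum.inl v) := by
  refine pair_VV hG hu hv (fun h => hab (by rw [h])) fun h => hn ?_
  exact ⟨h, fun h1 => hu h1.1, fun h1 => hv h1.1⟩

private theorem StepB_big (hG : Good G x t0 t1 t2) (p : Fin 9) :
    p < 6 ∨ ∃ t, t ≠ x ∧ gv x t0 t1 t2 p = Sum.inl t := by
  have h0 : t0 ≠ x := (((hG.nbr t0).2 (Or.inl rfl)).ne).symm
  have h1 : t1 ≠ x := (((hG.nbr t1).2 (Or.inr (Or.inl rfl))).ne).symm
  have h2 : t2 ≠ x := (((hG.nbr t2).2 (Or.inr (Or.inr rfl))).ne).symm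
  fin_cases p
  · exact Or.inl (by decide)
  · exact Or.inl (by decide)
  · exact Or.inl (by decide)
  · exact Or.inl (by decide)
  · exact Or.inl (by decide)
  · exact Or.inl (by decide)
  · exact Or.inr ⟨t0, h0, rfl⟩
  · exact Or.inr ⟨t1, h1, rfl⟩
  · exact Or.inr ⟨t2, h2, rfl⟩

private theorem StepB_true {H : SimpleGraph (V ⊕ Fin 5)} {a b : V ⊕ Fin 5}
    (h : HP H (fun w => ∀ e ∈ ([] : List (Fin 9)), w ≠ gv x t0 t1 t2 e) a b) :
    HP H (fun _ => True) a b :=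
  h.congr fun w => ⟨fun _ => trivial, fun _ e he => absurd he (by simp)⟩

private theorem StepB_gg (hG : Good G x t0 t1 t2) (p q : Fin 9) (hp : p < 6)
    (hab : gv x t0 t1 t2 p ≠ gv x t0 t1 t2 q)
    (hn : ¬ (phi G x t0 t1 t2).Adj (gv x t0 t1 t2 p) (gv x t0 t1 t2 q)) :
    HP (phi G x t0 t1 t2) (fun _ => True) (gv x t0 t1 t2 p) (gv x t0 t1 t2 q) := by
  have hpq : p ≠ q := fun h => hab (by rw [h])
  have hg : gadj p q = false := by
    rw [Bool.eq_false_iff]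
    exact fun h => hn (gv_adj hG p q h)
  exact StepB_true (jump hG _ _ [] p q (tabJ_ok p q hp hpq hg))

private theorem StepB_gu (hG : Good G x t0 t1 t2) (q : Fin 9) (u : V) (hq : q < 6)
    (hu : u ≠ x ∧ u ≠ t0 ∧ u ≠ t1 ∧ u ≠ t2) :
    HP (phi G x t0 t1 t2) (fun _ => True) (Sum.inl u) (gv x t0 t1 t2 q) := by
  rcases hG.dd u hu.1 hu.2.1 hu.2.2.1 hu.2.2.2 with h | h
  · exact StepB_true (tail1 hG hu h _ [] q (tab1_ok q hq))
  · exact StepB_true (tail2 hG hu h _ [] q (tab2_ok q hq))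

/-- Cases by `vtx_cases` (and `HP.symm`): both not in the hexagon: `pair_VV`; one is `gv p` with
`p < 6`: the other one `gv q`: `jump` with `tabJ_ok`; the other one `inl u`: `dd`, `tail1`,
`tail2` with `tab1_ok`, `tab2_ok`. -/
theorem phi_pairs (hG : Good G x t0 t1 t2) (a b : V ⊕ Fin 5) (hab : a ≠ b)
    (hn : ¬ (phi G x t0 t1 t2).Adj a b) : HP (phi G x t0 t1 t2) (fun _ => True) a b := by
  have hn' : ¬ (phi G x t0 t1 t2).Adj b a := fun h => hn h.symm
  rcases vtx_cases G x t0 t1 t2 a with ⟨p, rfl⟩ | ⟨u, rfl, hu⟩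
  · rcases vtx_cases G x t0 t1 t2 b with ⟨q, rfl⟩ | ⟨v, rfl, hv⟩
    · rcases StepB_big hG p with hp | ⟨t, ht, hpt⟩
      · exact StepB_gg hG p q hp hab hn
      · rcases StepB_big hG q with hq | ⟨t', ht', hqt⟩
        · exact (StepB_gg hG q p hq hab.symm hn').symm
        · rw [hpt, hqt] at hab hn ⊢
          exact StepB_VV hG t t' ht ht' hab hn
    · rcases StepB_big hG p with hp | ⟨t, ht, hpt⟩
      · exact (StepB_gu hG p v hp hv).symm
      · rw [hpt] at hab hn ⊢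
        exact StepB_VV hG t v ht hv.1 hab hn
  · rcases vtx_cases G x t0 t1 t2 b with ⟨q, rfl⟩ | ⟨v, rfl, hv⟩
    · rcases StepB_big hG q with hq | ⟨t', ht', hqt⟩
      · exact StepB_gu hG q u hq hu
      · rw [hqt] at hab hn ⊢
        exact StepB_VV hG u t' hu.1 ht' hab hn
    · exact StepB_VV hG u v hu.1 hv.1 hab hn

end Pool.Mnh583
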